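import Pool.Agent.H2.T4.P4c
import Pool.Agent.H2.T4.P12
import Pool.Agent.H2.T4.P14
import Pool.Agent.H2.T4.P15

/-!
The Weil pairing with a point of order l fixed by complex conjugation (adaptation of Pool/Agent/H2/T4/PZ.lean by helper2; helper78, no row).
-/

set_option autoImplicit false
open scoped Classical nonZeroDivisors Polynomial.Bivariate

open WeierstrassCurve Polynomial Pool.Agent.H10 H2T4

namespace H78D

theorem weil2 {k : Type} [Field k] [IsAlgClosed k] [CharZero k] (W : WeierstrassCurve k) [W.IsElliptic]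
    (l : ℕ) (hl : l.Prime) (h3 : 3 ≤ l) (T₀ : W.toAffine.Point) (h0 : T₀ ≠ 0) (hT₀ : l • T₀ = 0)
    (J : k →+* k) (hJ : W.map J = W) (hJT : pm J hJ T₀ = T₀) (hJζ : ∀ ζ : k, ζ ^ l = 1 → J ζ = ζ⁻¹) :
    ∃ e : W.toAffine.Point → k, (∀ S, l • S = 0 → e S ^ l = 1) ∧
      (∀ S S', l • S = 0 → l • S' = 0 → e (S + S') = e S * e S') ∧
      (∀ ζ : k, ζ ^ l = 1 → ∃ S, l • S = 0 ∧ e S = ζ) ∧
      (∀ S, l • S = 0 → (e S = 1 ↔ ∃ j : ℕ, S = j • T₀)) ∧
      (∀ (σ : k →+* k) (h : W.map σ = W), pm σ h T₀ = T₀ → ∀ S, l • S = 0 → e (pm σ h S) = σ (e S)) ∧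
      (∀ (σ : k →+* k) (h : W.map σ = W), pm σ h T₀ = -T₀ →
        ∀ S, l • S = 0 → e (pm σ h S) * σ (e S) = 1) := by
  have : Fact l.Prime := ⟨hl⟩
  have hl0 : l ≠ 0 := hl.ne_zero
  have : NeZero l := ⟨hl0⟩
  have hodd : Odd l := hl.odd_of_ne_two (by omega)
  have hex : ∀ S : W.toAffine.Point, ∃ ζ : k, l • S = 0 → IsWeil W l T₀ S ζ ∧ ζ ^ l = 1 := by
    intro S
    by_cases hS : l • S = 0
    · obtain ⟨ζ, h1, h2⟩ := isWeil_exists W l hodd T₀ S h0 hT₀ hS
      exact ⟨ζ, fun _ => ⟨h1, h2⟩⟩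
    · exact ⟨1, fun h => absurd h hS⟩
  choose e he using hex
  have hne : ∀ S, l • S = 0 → e S ≠ 0 := by
    intro S hS h
    have h1 := (he S hS).2
    rw [h, zero_pow hl0] at h1
    exact zero_ne_one h1
  have hadd0 : ∀ S S' : W.toAffine.Point, l • S = 0 → l • S' = 0 → l • (S + S') = 0 := by
    intro S S' h1 h2
    rw [smul_add, h1, h2, add_zero]
  have hmul : ∀ S S', l • S = 0 → l • S' = 0 → e (S + S') = e S * e S' := by
    intro S S' h1 h2
    exact isWeil_unique W l hl0 T₀ (S + S') _ _ (he _ (hadd0 S S' h1 h2)).1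
      (isWeil_add W l hl0 T₀ S S' _ _ (he S h1).1 (he S' h2).1)
  have hz : l • (0 : W.toAffine.Point) = 0 := smul_zero _
  have he0 : e 0 = 1 := by
    have h1 := hmul 0 0 hz hz
    rw [add_zero] at h1
    exact (mul_eq_left₀ (hne 0 hz)).mp h1.symm
  have hsm : ∀ (S : W.toAffine.Point) (j : ℕ), l • S = 0 → l • (j • S) = 0 := by
    intro S j h
    rw [smul_comm, h, smul_zero]
  have hnat : ∀ (S : W.toAffine.Point) (j : ℕ), l • S = 0 → e (j • S) = e S ^ j := by
    intro S j hS
    induction j with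
    | zero => rw [zero_smul, pow_zero, he0]
    | succ j ih => rw [succ_nsmul, hmul _ _ (hsm S j hS) hS, ih, pow_succ]
  have hpm0 : ∀ (σ : k →+* k) (h : W.map σ = W) (S : W.toAffine.Point), l • S = 0 →
      l • pm σ h S = 0 := by
    intro σ h S hS
    rw [← map_nsmul, hS, map_zero]
  have hneg : ∀ (σ : k →+* k) (h : W.map σ = W), pm σ h T₀ = -T₀ →
      ∀ S, l • S = 0 → e (pm σ h S) * σ (e S) = 1 := by
    intro σ h hσ S hS
    have h1 := isWeil_map W W σ h l hl0 T₀ S (e S) (he S hS).1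
    rw [hσ] at h1
    have h2 := isWeil_neg W l hl0 T₀ (pm σ h S) (hpm0 σ h S hS) _ (he _ (hpm0 σ h S hS)).1
    have h3 := isWeil_unique W l hl0 _ _ _ _ h1 h2.2
    rw [h3, mul_inv_cancel₀ h2.1]
  have hpos : ∀ (σ : k →+* k) (h : W.map σ = W), pm σ h T₀ = T₀ →
      ∀ S, l • S = 0 → e (pm σ h S) = σ (e S) := by
    intro σ h hσ S hS
    have h1 := isWeil_map W W σ h l hl0 T₀ S (e S) (he S hS).1
    rw [hσ] at h1
    exact isWeil_unique W l hl0 _ _ _ _ (he _ (hpm0 σ h S hS)).1 h1
  obtain ⟨S₁, hS₁, hprim⟩ : ∃ S₁ : W.toAffine.Point, l • S₁ = 0 ∧ IsPrimitiveRoot (e S₁) l := by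
    by_contra hcon
    push Not at hcon
    apply isWeil_nondeg W l hl0 T₀
    intro T hT
    have h1 : e T = 1 := by
      by_contra h2
      apply hcon T hT
      have h3 : orderOf (e T) = l := orderOf_eq_prime (he T hT).2 h2
      have h4 := IsPrimitiveRoot.orderOf (e T)
      rwa [h3] at h4
    have h2 := (he T hT).1
    rwa [h1] at h2
  have heT : e T₀ = 1 := by
    have h1 := hpos J hJ hJT T₀ hT₀
    rw [hJT, hJζ _ (he T₀ hT₀).2] at h1
    have h2 : e T₀ * e T₀ = 1 := by
      nth_rewrite 1 [h1]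
      exact inv_mul_cancel₀ (hne T₀ hT₀)
    obtain ⟨m, hm⟩ := hodd
    have h5 := (he T₀ hT₀).2
    rw [hm, pow_succ, pow_mul, pow_two, h2, one_pow, one_mul] at h5
    exact h5
  refine ⟨e, fun S hS => (he S hS).2, hmul, ?_, ?_, ?_, hneg⟩
  · intro ζ hζ
    obtain ⟨i, hi, h1⟩ := hprim.eq_pow_of_pow_eq_one hζ
    exact ⟨i • S₁, hsm S₁ i hS₁, by rw [hnat S₁ i hS₁, h1]⟩
  · intro S hS
    constructor
    · intro hS1
      set E := (Pool.Agent.H11.finite_torsion W l hl0).toFinset with hE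
      have hmemE : ∀ T, T ∈ E ↔ l • T = 0 := by
        intro T
        rw [hE, Set.Finite.mem_toFinset]
        rfl
      have hEc : E.card ≤ l ^ 2 := by
        have h1 := card_torsion_le W l hl0
        rwa [Set.ncard_eq_toFinset_card _ (Pool.Agent.H11.finite_torsion W l hl0)] at h1
      set K := E.filter (fun T => e T = 1) with hK
      have hcard : (K ×ˢ Finset.range l).card ≤ E.card := by
        apply Finset.card_le_card_of_injOn (fun p => p.1 + p.2 • S₁)
        · rintro ⟨T, j⟩ hp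
          have hp' := Finset.mem_coe.mp hp
          rw [Finset.mem_product, hK, Finset.mem_filter, hmemE] at hp'
          exact Finset.mem_coe.mpr ((hmemE _).mpr (hadd0 _ _ hp'.1.1 (hsm S₁ j hS₁)))
        · rintro ⟨T, j⟩ hp ⟨T', j'⟩ hp' heq
          have hp := Finset.mem_coe.mp hp
          have hp' := Finset.mem_coe.mp hp'
          rw [Finset.mem_product, hK, Finset.mem_filter, hmemE, Finset.mem_range] at hp hp'
          have heq : T + j • S₁ = T' + j' • S₁ := heq
          have h1 := congrArg e heq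
          rw [hmul _ _ hp.1.1 (hsm S₁ j hS₁), hmul _ _ hp'.1.1 (hsm S₁ j' hS₁), hp.1.2, hp'.1.2,
            one_mul, one_mul, hnat _ _ hS₁, hnat _ _ hS₁] at h1
          have h2 : j = j' := hprim.pow_inj hp.2 hp'.2 h1
          subst h2
          rw [add_left_inj] at heq
          rw [heq]
      rw [Finset.card_product, Finset.card_range] at hcard
      have hKc : K.card ≤ l := by
        have h1 : K.card * l ≤ l * l := by
          rw [← pow_two]
          exact hcard.trans hEc
        exact Nat.le_of_mul_le_mul_right h1 hl.pos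
      set M := (Finset.range l).image (fun j => j • T₀) with hM
      have hMK : M ⊆ K := by
        intro T hT
        rw [hM, Finset.mem_image] at hT
        obtain ⟨j, -, rfl⟩ := hT
        rw [hK, Finset.mem_filter, hmemE]
        refine ⟨hsm T₀ j hT₀, ?_⟩
        rw [hnat T₀ j hT₀, heT, one_pow]
      have hMc : M.card = l := by
        rw [hM, Finset.card_image_of_injOn, Finset.card_range]
        have h1 : addOrderOf T₀ = l := addOrderOf_eq_prime hT₀ h0
        have h2 := nsmul_injOn_Iio_addOrderOf (x := T₀)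
        rw [h1] at h2
        intro a ha b hb hab
        exact h2 (by simpa using ha) (by simpa using hb) hab
      have hMK' : M = K := Finset.eq_of_subset_of_card_le hMK (by rw [hMc]; exact hKc)
      have h3 : S ∈ K := by
        rw [hK, Finset.mem_filter, hmemE]
        exact ⟨hS, hS1⟩
      rw [← hMK', hM, Finset.mem_image] at h3
      obtain ⟨j, -, hj⟩ := h3
      exact ⟨j, hj.symm⟩
    · rintro ⟨j, rfl⟩
      rw [hnat T₀ j hT₀, heT, one_pow]
  · intro σ h hσ S hS
    have h1 := isWeil_map W W σ h l hl0 T₀ S (e S) (he S hS).1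
    rw [hσ] at h1
    exact isWeil_unique W l hl0 _ _ _ _ (he _ (hpm0 σ h S hS)).1 h1

end H78D
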