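import Pool.Agent.H78.TD.Df
import Pool.Agent.H2.T4.PZ
import Pool.Agent.H78.TE.Wp

/-!
The Weil pairing with T, order 2 (adaptation of TD/Wa.lean; helper78, no row).
-/

set_option autoImplicit false
open scoped Classical

open WeierstrassCurve IsDedekindDomain NumberField Pool.Agent.H10 Pool.Agent.H11

namespace H78D

theorem exists_weil2 {K Km F : Type} [Field K] [NumberField K] [Field Km] [Field F]
    [NumberField F] [Algebra K F] [Algebra Km F] {V : WeierstrassCurve K} {W : WeierstrassCurve F}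
    [W.IsElliptic] (hV : V.map (algebraMap K F) = W) {l : ℕ} (hl : l.Prime) (h3 : 3 ≤ l)
    {T : (W.baseChange (AlgebraicClosure F)).toAffine.Point} (hT0 : T ≠ 0) (hT : l • T = 0)
    {Jh : AlgebraicClosure F ≃ₐ[K] AlgebraicClosure F} (hJT : act (inv_up hV) Jh T = T)
    (hJz : ∀ z : AlgebraicClosure F, z ^ l = 1 → Jh z = z⁻¹)
    (hμ : ∀ σ ∈ SA K Km (AlgebraicClosure F), ∀ z : AlgebraicClosure F, z ^ l = 1 → σ z = z)
    (hfix : ∀ σ ∈ SA K Km (AlgebraicClosure F), act (inv_up hV) σ T = T) :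
    ∃ e : (W.baseChange (AlgebraicClosure F)).toAffine.Point → AlgebraicClosure F,
      Pr l {x | l • x = 0} e ∧ (∀ x, l • x = 0 → (e x = 1 ↔ ∃ j : ℕ, x = j • T)) ∧
      (∀ σ ∈ SA K Km (AlgebraicClosure F), Kp (act (inv_up hV)) {x | l • x = 0} e σ) ∧
      (∀ x, l • x = 0 → e (act (inv_up hV) Jh x) = (e x)⁻¹) := by
  obtain ⟨e, e1, e2, -, e4, e5, -⟩ := weil2 (W.baseChange (AlgebraicClosure F)) l hl h3 T hT0 hT
    (Jh : AlgebraicClosure F →+* AlgebraicClosure F) (inv_up hV Jh) hJT hJz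
  have hz : l • (0 : (W.baseChange (AlgebraicClosure F)).toAffine.Point) = 0 := nsmul_zero l
  have htor : ∀ (σ : AlgebraicClosure F ≃ₐ[K] AlgebraicClosure F) x, l • x = 0 →
      l • act (inv_up hV) σ x = 0 := by
    intro σ x hx
    rw [← map_nsmul, hx, map_zero]
  refine ⟨e, ⟨hz, fun x hx => hx, fun x hx y hy => ?_, fun x hx y hy => e2 x y hx hy,
    fun x hx => e1 x hx⟩, e4, fun σ hσ x hx => ⟨htor σ x hx, ?_⟩, fun x hx => ?_⟩
  · have hx' : l • x = 0 := hx
    have hy' : l • y = 0 := hy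
    exact (nsmul_add x y l).trans (by rw [hx', hy', add_zero])
  · have h1 := e5 (σ : AlgebraicClosure F →+* AlgebraicClosure F) (inv_up hV σ) (hfix σ hσ) x hx
    have h2 : ((σ : AlgebraicClosure F →+* AlgebraicClosure F)) (e x) = e x :=
      hμ σ hσ _ (e1 x hx)
    rw [h2] at h1
    exact h1
  · have h1 := e5 (Jh : AlgebraicClosure F →+* AlgebraicClosure F) (inv_up hV Jh) hJT x hx
    have h2 : ((Jh : AlgebraicClosure F →+* AlgebraicClosure F)) (e x) = (e x)⁻¹ :=
      hJz _ (e1 x hx)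
    exact h1.trans h2

end H78D
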