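import Pool.Agent.H78.TD.Df

/-!
# MP_78d38b_T4, order 2: the subgroup is the kernel of reduction above `l` and is fixed by complex conjugation
(definitions, no row)
-/

set_option autoImplicit false
open scoped Classical

open WeierstrassCurve IsDedekindDomain NumberField Pool.Agent.H10 Pool.Agent.H11

namespace H78D

/-- `W` has good reduction above `l`, and over every number field containing `F` the points killed by `l` which reduce
to the origin at a prime above `l` are multiples of `T`. -/
def KerR (l : ℕ) {F : Type} [Field F] [NumberField F] (W : WeierstrassCurve F) (T : W.toAffine.Point) : Prop :=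
  (∀ w : HeightOneSpectrum (𝓞 F), (l : 𝓞 F) ∈ w.asIdeal →
    (w.valuation F W.a₁ ≤ 1 ∧ w.valuation F W.a₂ ≤ 1 ∧ w.valuation F W.a₃ ≤ 1 ∧
      w.valuation F W.a₄ ≤ 1 ∧ w.valuation F W.a₆ ≤ 1 ∧ w.valuation F W.Δ = 1)) ∧
  ∀ (N : Type) [Field N] [NumberField N] [Algebra F N] (q : HeightOneSpectrum (𝓞 N)), (l : 𝓞 N) ∈ q.asIdeal →
    ∀ (x y : N) (h : (W.map (algebraMap F N)).toAffine.Nonsingular x y), l • Affine.Point.some x y h = 0 →
      1 < q.valuation N x → ∃ j : ℕ, Affine.Point.some x y h = j • pm (algebraMap F N) rfl T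

/-- The data of the descent over the pair `Km < F`: a point `T` of order `l` of `W`, fixed by `h` and by `J`, which
generates the kernel of reduction above `l`, and the two class field theoretic hypotheses. -/
structure Dat2 (l : ℕ) (K Km L F : Type) [Field K] [NumberField K] [Field Km] [NumberField Km]
    [Field L] [NumberField L] [Field F] [NumberField F] [Algebra K F] [Algebra Km F] [Algebra L F]
    (W : WeierstrassCurve F) (T : W.toAffine.Point) (h : F ≃ₐ[Km] F) (J : F ≃ₐ[L] F) (D : ℤ) :
    Prop where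
  prime : l.Prime
  three : 3 ≤ l
  tow : Tow l K Km L F h J
  ell : W.IsElliptic
  T0 : T ≠ 0
  Tl : l • T = 0
  Th : ∃ hh : W.map (h : F →+* F) = W, pm (h : F →+* F) hh T = T
  TJ : ∃ hh : W.map (J : F →+* F) = W, pm (J : F →+* F) hh T = T
  kr : KerR l W T
  good : ∀ w : HeightOneSpectrum (𝓞 F), ((D : ℤ) : 𝓞 F) ∉ w.asIdeal →
    GoodVal (w.valuation F) W l
  noE : H68TL.NoNewE l Km F ∅ (J : F ≃+* F)
  noC : H68TL.NoUnr l Km F (J : F ≃+* F)
  fixP : H68TL.FixP D Km F

end H78D
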