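import Pool.Agent.H78.TE.Df
import Pool.Agent.H78.TD.Ub
import Pool.Agent.H78.TD.Uc
import Pool.Agent.H78.TD.Ud

/-!
The extension cut out by a new class modulo the kernel of reduction is unramified above `l` (helper78, no row).
-/

set_option autoImplicit false
open scoped Classical

open IsDedekindDomain NumberField WeierstrassCurve Pool.Agent.H10 Pool.Agent.H11

namespace H78D

theorem not_mem_val {F M : Type} [Field F] [NumberField F] [Field M] [NumberField M] [Algebra F M]
    (w : HeightOneSpectrum (𝓞 F)) (V : ValuationSubring M)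
    (hV : ∀ x : F, algebraMap F M x ∈ V ↔ w.valuation F x ≤ 1) :
    ∃ q : HeightOneSpectrum (𝓞 M), (∀ x : 𝓞 F, x ∈ w.asIdeal → algebraMap (𝓞 F) (𝓞 M) x ∈ q.asIdeal) ∧
      ∀ x : M, x ∉ V → 1 < q.valuation M x := by
  have hprime : (Uc_q V).IsPrime := by
    unfold Uc_q
    exact Ideal.comap_isPrime _ _
  have hne : Uc_q V ≠ ⊥ := by
    intro h0
    apply w.ne_bot
    rw [eq_bot_iff]
    intro x hx
    have h1 : algebraMap (𝓞 F) (𝓞 M) x ∈ Uc_q V := (Uc_under w V hV x).2 hx
    rw [h0, Ideal.mem_bot] at h1
    rw [Ideal.mem_bot]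
    exact (map_eq_zero_iff _ (FaithfulSMul.algebraMap_injective (𝓞 F) (𝓞 M))).1 h1
  refine ⟨⟨Uc_q V, hprime, hne⟩, fun x hx => (Uc_under w V hV x).2 hx, ?_⟩
  intro x hx
  by_contra hc
  rw [not_lt] at hc
  obtain ⟨n, d, hnd⟩ := (⟨Uc_q V, hprime, hne⟩ : HeightOneSpectrum (𝓞 M)).exists_primeCompl_mul_eq_of_integer x hc
  have h2 : V.valuation (algebraMap (𝓞 M) M d) = 1 := Uc_notmem V d d.2
  have h3 : V.valuation (algebraMap (𝓞 M) M n) ≤ 1 := (V.valuation_le_one_iff _).2 (Uc_int V n)
  rw [← hnd, map_mul, h2, mul_one] at h3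
  exact hx ((V.valuation_le_one_iff _).1 h3)

theorem kerR_use {l : ℕ} {F : Type} [Field F] [NumberField F] {W : WeierstrassCurve F} {T : W.toAffine.Point}
    (hK : KerR l W T) (N : Type) [Field N] [NumberField N] [Algebra F N] [inst : DecidableEq N]
    (q : HeightOneSpectrum (𝓞 N)) (hq : (l : 𝓞 N) ∈ q.asIdeal) (x y : N)
    (h : (W.map (algebraMap F N)).toAffine.Nonsingular x y)
    (hl : l • (Affine.Point.some x y h : (W.map (algebraMap F N)).toAffine.Point) = 0) (hx : 1 < q.valuation N x) :
    ∃ j : ℕ, (Affine.Point.some x y h : (W.map (algebraMap F N)).toAffine.Point) =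
      j • pm (algebraMap F N) rfl T := by
  obtain rfl : inst = fun a b => Classical.propDecidable (a = b) := Subsingleton.elim _ _
  exact hK.2 N q hq x y h hl hx

theorem unr_at_l2 {F : Type} [Field F] [NumberField F] (W : WeierstrassCurve F) [W.IsElliptic]
    {l : ℕ} (hl : l.Prime) (hroot : ∃ z : F, IsPrimitiveRoot z l)
    {T : W.toAffine.Point} (hK : KerR l W T) (w : HeightOneSpectrum (𝓞 F))
    (hw : (l : 𝓞 F) ∈ w.asIdeal) {f : Gam F → Pts W} (hf : ∀ σ, l • f σ = 0)
    (hloc : IsLocTriv F W f) {r : AlgebraicClosure F} {d : F} (hd : d ≠ 0)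
    (hrd : r ^ l = algebraMap F (AlgebraicClosure F) d)
    (hfix : ∀ σ : Gam F, (∃ j : ℕ, f σ = j • pm (algebraMap F (AlgebraicClosure F)) rfl T) → σ r = r) :
    UnrK l F d w := by
  have hl0 : l ≠ 0 := hl.ne_zero
  have hfin : FiniteDimensional F (Kn W l) := Kn_finite W l hl0
  have hint : IsIntegral F r := Algebra.IsIntegral.isIntegral r
  have hfin2 : FiniteDimensional F (IntermediateField.adjoin F {r}) :=
    IntermediateField.adjoin.finiteDimensional hint
  obtain ⟨M, hM⟩ : ∃ M : IntermediateField F (AlgebraicClosure F), M = Kn W l ⊔ IntermediateField.adjoin F {r} :=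
    ⟨_, rfl⟩
  have hfin3 : FiniteDimensional F M := by
    rw [hM]
    exact IntermediateField.finiteDimensional_sup _ _
  have hKn : Kn W l ≤ M := by
    rw [hM]
    exact le_sup_left
  have hrM : IntermediateField.adjoin F {r} ≤ M := by
    rw [hM]
    exact le_sup_right
  have hNM : NumberField M := NumberField.of_module_finite F M
  let ι : AlgebraicClosure F →ₐ[F] AlgebraicClosure (w.adicCompletion F) := IsAlgClosed.lift
  let TM : (W.baseChange M).toAffine.Point := pm (algebraMap F M) rfl T
  have hTM : (WeierstrassCurve.Affine.Point.map M.val :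
      (W.baseChange M).toAffine.Point →+ (W.baseChange (AlgebraicClosure F)).toAffine.Point) TM =
      pm (algebraMap F (AlgebraicClosure F)) rfl T := by
    cases T with
    | zero => rfl
    | some x y h => rfl
  obtain ⟨V, hV, hV2⟩ := loc_et W w (hK.1 w hw) ι M f
    (fun σ ↦ ∃ j : ℕ, f σ = j • pm (algebraMap F (AlgebraicClosure F)) rfl T)
    (fun σ ↦ exists_descend W hKn (f σ) (hf σ)) (hloc.1 w ι) (by
      intro V hV σ S hS hI
      rcases hI with h0 | ⟨x, y, h, hxy, hx⟩
      · refine ⟨0, ?_⟩
        have h7 : f σ = 0 := by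
          rw [← hS, h0]
          exact map_zero _
        rw [h7]
        exact (zero_nsmul _).symm
      · obtain ⟨q, hq1, hq2⟩ := not_mem_val w V hV
        have hlq : (l : 𝓞 M) ∈ q.asIdeal := by
          have := hq1 _ hw
          rwa [map_natCast] at this
        have hlS : l • S = 0 := by
          apply WeierstrassCurve.Affine.Point.map_injective (W' := W) (f := M.val)
          rw [map_nsmul, map_zero]
          rw [hS]
          exact hf σ
        rw [hxy] at hlS
        obtain ⟨j, hj⟩ := kerR_use hK M q hlq x y h hlS (hq2 x hx)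
        have hj' : (Affine.Point.some x y h : (W.baseChange M).toAffine.Point) = j • TM := hj
        refine ⟨j, ?_⟩
        have h5 := congrArg (WeierstrassCurve.Affine.Point.map M.val :
          (W.baseChange M).toAffine.Point →+ (W.baseChange (AlgebraicClosure F)).toAffine.Point) hj'
        rw [map_nsmul, hTM] at h5
        rw [← hS, hxy]
        exact h5)
  obtain ⟨i0, hi0⟩ : ∃ i0 : IntermediateField.adjoin F {r} →+* M, ∀ x, ((i0 x : M) : AlgebraicClosure F) = x :=
    ⟨(IntermediateField.inclusion hrM).toRingHom, fun x => rfl⟩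
  refine unr_of_place hl hroot hd w (M := IntermediateField.adjoin F {r})
    (r := ⟨r, IntermediateField.mem_adjoin_simple_self F r⟩) (Subtype.ext hrd) (V.comap i0) ?_ ?_
  · intro x
    rw [ValuationSubring.mem_comap, ← hV]
    have : i0 (algebraMap F (IntermediateField.adjoin F {r}) x) = algebraMap F M x := by
      apply Subtype.ext
      rw [hi0]
      rfl
    rw [this]
  · intro α hα
    have hα' : i0 α ≠ 0 := (map_ne_zero _).2 hα
    obtain ⟨c, hc, h1, h2⟩ := hV2 (i0 α) hα' (fun σ hσ => by
      rw [hi0]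
      have h1 : IntermediateField.adjoin F {r} ≤ IntermediateField.fixedField (Subgroup.zpowers σ) := by
        rw [IntermediateField.adjoin_simple_le_iff]
        rw [IntermediateField.mem_fixedField_iff]
        intro τ hτ
        obtain ⟨n, rfl⟩ := Subgroup.mem_zpowers_iff.1 hτ
        have h2 : σ ∈ MulAction.stabilizer (Gam F) r := hfix σ hσ
        exact Subgroup.zpow_mem _ h2 n
      have h3 := h1 α.2
      rw [IntermediateField.mem_fixedField_iff] at h3
      exact h3 σ (Subgroup.mem_zpowers σ))
    have h3 : i0 (algebraMap F (IntermediateField.adjoin F {r}) c) = algebraMap F M c := by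
      apply Subtype.ext
      rw [hi0]
      rfl
    refine ⟨c, hc, ?_, ?_⟩
    · rw [ValuationSubring.mem_comap, map_div₀, h3]
      exact h1
    · rw [ValuationSubring.mem_comap, map_inv₀, map_div₀, h3]
      exact h2

end H78D
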