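import Pool.Agent.H78.TE.Pt
import Pool.Agent.H78.TD.Kd
import Pool.Agent.H78.TD.Ja
import Pool.Agent.H78.TD.Wa
import Pool.Agent.H78.TD.Gc

/-!
Order 2, step 2: a new class with values in the multiples of `T` on the group of `F` and on `Jh` vanishes on the group of `F`
(helper78, no row).
-/

set_option autoImplicit false
open scoped Classical

open WeierstrassCurve IsDedekindDomain NumberField Pool.Agent.H10 Pool.Agent.H11

namespace H78D

/-- `ρ σ x = x` on the multiples of `T` if `ρ σ T = T`. -/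
theorem mul_fix {G A : Type*} [Group G] [AddCommGroup A] {ρ : G → A →+ A} {T : A} {σ : G} (h : ρ σ T = T)
    {x : A} (hx : ∃ j : ℕ, x = j • T) : ρ σ x = x := by
  obtain ⟨j, rfl⟩ := hx
  rw [map_nsmul, h]

theorem step2b {K Km L F : Type} [Field K] [NumberField K] [Field Km] [NumberField Km] [Field L]
    [NumberField L] [Field F] [NumberField F] [Algebra K L] [Algebra K F] [Algebra L F]
    [IsScalarTower K L F] [Algebra K Km] [Algebra Km F] [IsScalarTower K Km F] [Normal K L]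
    [Normal K F] [IsGalois Km F] {V : WeierstrassCurve K} {W : WeierstrassCurve F} {l : ℕ}
    {T : W.toAffine.Point} {h : F ≃ₐ[Km] F} {J : F ≃ₐ[L] F} {D : ℤ}
    (H : Dat2 l K Km L F W T h J D) (hV : V.map (algebraMap K F) = W)
    {Jh : AlgebraicClosure F ≃ₐ[K] AlgebraicClosure F} (hJh : Jh ∈ SA K L (AlgebraicClosure F))
    (hJ : ∀ x : F, Jh (algebraMap F (AlgebraicClosure F) x) =
      algebraMap F (AlgebraicClosure F) (J x))
    {hh : AlgebraicClosure F ≃ₐ[K] AlgebraicClosure F}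
    (hlift : ∀ x : F, hh (algebraMap F (AlgebraicClosure F) x) =
      algebraMap F (AlgebraicClosure F) (h x))
    {R : (W.baseChange (AlgebraicClosure F)).toAffine.Point} (hR : ∃ j : ℕ, R = j • tp W T)
    {f : (AlgebraicClosure F ≃ₐ[K] AlgebraicClosure F) →
      (W.baseChange (AlgebraicClosure F)).toAffine.Point} (hf : SC l L hV f)
    (hnew : New L hV hh (orderOf h) R f)
    (hC : ∀ s ∈ SA K F (AlgebraicClosure F), ∃ j : ℕ, f s = j • tp W T)
    (hJC : ∃ j : ℕ, f Jh = j • tp W T) :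
    ∀ s ∈ SA K F (AlgebraicClosure F), f s = 0 := by
  have hl := H.prime
  have hell := H.ell
  have hFL : SA K F (AlgebraicClosure F) ≤ SA K L (AlgebraicClosure F) := SA_le
  have hFKm : SA K F (AlgebraicClosure F) ≤ SA K Km (AlgebraicClosure F) := SA_le
  obtain ⟨ζ0, hζ0⟩ := H.tow.root
  have hζ : IsPrimitiveRoot (algebraMap Km (AlgebraicClosure F) ζ0) l :=
    hζ0.map_of_injective (algebraMap Km (AlgebraicClosure F)).injective
  obtain ⟨b, hb, hb1, -, hb3, -⟩ := exists_pairC (act (inv_up hV)) hl (pt_ne2 H).1 (pt_ne2 H).2 hζ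
  have hfixT := pt_fix2 H hV
  have hinv : ∀ s ∈ SA K F (AlgebraicClosure F),
      Kp (act (inv_up hV)) {x | ∃ j : ℕ, x = j • tp W T} b s :=
    fun s hs => hb3 s (hfixT s (hFKm hs))
  have hhb : Kp (act (inv_up hV)) {x | ∃ j : ℕ, x = j • tp W T} b hh :=
    hb3 hh (hfixT hh (lift_mem hlift))
  obtain ⟨r, d, hr, hd, hrd, hψ, hN, hv⟩ := kum_all hV hl H.tow.gen H.tow.cop hlift (roots2 H) hb
    hinv hhb hf hC hR hnew H.good H.fixP
  obtain ⟨y1, hy1⟩ := kumJ_plus hV hl hb hf.coc hC hinv hJh hJ hJC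
    (fun x hx => roots_J2 H hJ (b x) (hb.pow x hx)) (hb3 Jh (pt_pos2 H hV hJ)) hr hrd hψ
  obtain ⟨y, hy⟩ := H.noE d hd hv hN (fun τ hτ => absurd hτ (Set.notMem_empty τ)) ⟨y1, hy1⟩
  have hy0 : algebraMap F (AlgebraicClosure F) y ≠ 0 := by
    intro h0
    rw [map_eq_zero] at h0
    rw [h0, zero_pow hl.ne_zero] at hy
    exact hd hy
  obtain ⟨z, hz⟩ := roots2 H (r / algebraMap F (AlgebraicClosure F) y) (by
    rw [div_pow, hrd, hy, map_pow, div_self (pow_ne_zero l hy0)])
  have hrz : r = algebraMap Km (AlgebraicClosure F) z * algebraMap F (AlgebraicClosure F) y := by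
    rw [hz, div_mul_cancel₀ _ hy0]
  intro s hs
  have a1 := hψ s hs
  have a2 : s r = r := by
    rw [hrz, map_mul, hs y, hFKm hs z]
  rw [a2] at a1
  have a3 : b (f s) = 1 := by
    have a4 : b (f s) * r = 1 * r := by rw [one_mul, ← a1]
    exact mul_right_cancel₀ hr a4
  exact hb1 _ (hC s hs) a3

end H78D
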