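import Pool.Agent.H78.TE.S1
import Pool.Agent.H78.TE.S2
import Pool.Agent.H78.TE.Wa
import Pool.Agent.H78.TD.Ga
import Pool.Agent.H78.TD.Gb
import Pool.Agent.H78.TD.Gc
import Pool.Agent.H78.TD.Ta
import Pool.Agent.H78.TD.Tb
import Pool.Agent.H78.TD.Lg

/-!
Order 2: conjugation does not change the classes, over the closure of F (helper78, no row).
-/

set_option autoImplicit false
set_option linter.style.haveILetI false
open scoped Classical

open WeierstrassCurve IsDedekindDomain NumberField Pool.Agent.H10 Pool.Agent.H11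

namespace H78D

section grp

variable {G A : Type*} [Group G] [AddCommGroup A] {ρ : G → A →+ A}

theorem tor_sub {A : Type*} [AddCommGroup A] {l : ℕ} {x y : A} (hx : l • x = 0) (hy : l • y = 0) :
    l • (x - y) = 0 := by rw [smul_sub, hx, hy, sub_zero]

theorem tor_add {A : Type*} [AddCommGroup A] {l : ℕ} {x y : A} (hx : l • x = 0) (hy : l • y = 0) :
    l • (x + y) = 0 := by rw [smul_add, hx, hy, add_zero]

theorem tor_smul {A : Type*} [AddCommGroup A] {l : ℕ} {x : A} (hx : l • x = 0) (m : ℕ) :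
    l • (m • x) = 0 := by rw [smul_comm, hx, smul_zero]

theorem tor_sum {A : Type*} [AddCommGroup A] {l : ℕ} {x : ℕ → A} (hx : ∀ j, l • x j = 0) (s : Finset ℕ) :
    l • (∑ j ∈ s, x j) = 0 := by rw [Finset.smul_sum, Finset.sum_eq_zero fun j _ => hx j]

theorem cocOn_cob (hρ : Rho ρ) (S : Subgroup G) (T : A) : CocOn ρ S (fun s => ρ s T - T) := by
  intro s _ t _
  change ρ (s * t) T - T = (ρ s T - T) + ρ s (ρ t T - T)
  rw [hρ.mul, map_sub]
  abel

/-- `f - dT` is new if `f` is. -/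
theorem new_shift (hρ : Rho ρ) {hh : G} {P : ℕ} {f : G → A} {R T : A} {s : G}
    (h : ∑ j ∈ Finset.range P, cjf ρ (hh ^ j) f s = ρ s R - R) :
    ∑ j ∈ Finset.range P, cjf ρ (hh ^ j) (fun s => f s - (ρ s T - T)) s =
      ρ s (R - ∑ j ∈ Finset.range P, ρ (hh ^ j) T) - (R - ∑ j ∈ Finset.range P, ρ (hh ^ j) T) := by
  have h1 : ∀ j, cjf ρ (hh ^ j) (fun s => f s - (ρ s T - T)) s =
      cjf ρ (hh ^ j) f s - (ρ s (ρ (hh ^ j) T) - ρ (hh ^ j) T) := by
    intro j
    rw [← cjf_cob hρ (hh ^ j) T s]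
    unfold cjf
    rw [map_sub]
  rw [Finset.sum_congr rfl fun j _ => h1 j, Finset.sum_sub_distrib, h, map_sub, map_sum, Finset.sum_sub_distrib]
  abel

end grp

/-- a finite set of elements of the closure such that automorphisms fixing it fix the point -/
theorem exists_fix {K F : Type} [Field K] [NumberField K] [Field F] [NumberField F] [Algebra K F] {V : WeierstrassCurve K} {W : WeierstrassCurve F}
    (hV : V.map (algebraMap K F) = W) (T : (W.baseChange (AlgebraicClosure F)).toAffine.Point) :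
    ∃ S : Finset (AlgebraicClosure F), ∀ σ : AlgebraicClosure F ≃ₐ[K] AlgebraicClosure F,
      (∀ x ∈ S, σ x = x) → Pool.Agent.H10.act (inv_up hV) σ T = T := by
  rcases T with _ | ⟨x, y, h⟩
  · exact ⟨∅, fun σ _ => map_zero _⟩
  · refine ⟨{x, y}, fun σ hσ => ?_⟩
    have hx := hσ x (by simp)
    have hy := hσ y (by simp)
    change pm (σ : AlgebraicClosure F →+* AlgebraicClosure F) _ _ = _
    rw [pm_some, Affine.Point.some.injEq]
    exact ⟨hx, hy⟩

theorem sc_shift {K L F : Type} [Field K] [NumberField K] [Field L] [NumberField L] [Field F]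
    [NumberField F] [Algebra K L] [Algebra K F] [Algebra L F] [IsScalarTower K L F] [Normal K L]
    [Normal K F] {V : WeierstrassCurve K} {W : WeierstrassCurve F}
    {hV : V.map (algebraMap K F) = W} {l : ℕ}
    {f : (AlgebraicClosure F ≃ₐ[K] AlgebraicClosure F) →
      (W.baseChange (AlgebraicClosure F)).toAffine.Point} (hf : SC l L hV f)
    {T : (W.baseChange (AlgebraicClosure F)).toAffine.Point} (hT : l • T = 0) :
    SC l L hV (fun s => f s - (act (inv_up hV) s T - T)) := by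
  have hρ := rho_act (inv_up hV)
  refine ⟨cocOn_sub hf.coc (cocOn_cob hρ _ T), ?_, ?_, ?_⟩
  · obtain ⟨S, hS⟩ := hf.cont
    obtain ⟨S', hS'⟩ := exists_fix hV T
    refine ⟨S ∪ S', fun σ hσ hx => ?_⟩
    change f σ - (act (inv_up hV) σ T - T) = 0
    rw [hS σ hσ fun x hxS => hx x (Finset.mem_union_left _ hxS),
      hS' σ fun x hxS => hx x (Finset.mem_union_right _ hxS), sub_self, sub_zero]
  · intro σ hσ
    change l • (f σ - (act (inv_up hV) σ T - T)) = 0
    refine tor_sub (hf.tor σ hσ) (tor_sub ?_ hT)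
    rw [← map_nsmul, hT, map_zero]
  · have h1 : (fun τ : AlgebraicClosure F ≃ₐ[F] AlgebraicClosure F => f (τ.restrictScalars K)) ∈
        ShaZ F W := ⟨sc_coc hf, hf.loc⟩
    have h2 : (fun τ : AlgebraicClosure F ≃ₐ[F] AlgebraicClosure F => act (inv_bc F W) τ T - T) ∈
        ShaZ F W := by
      apply shaB_le
      change IsCobound F W _
      rw [Pool.Agent.H10.isCobound_iff]
      exact ⟨T, fun σ => rfl⟩
    have h3 := (ShaZ F W).sub_mem h1 h2
    exact h3.2

theorem core2 {K Km L F : Type} [Field K] [NumberField K] [Field Km] [NumberField Km] [Field L]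
    [NumberField L] [Field F] [NumberField F] [Algebra K L] [Algebra K F] [Algebra L F]
    [IsScalarTower K L F] [Algebra K Km] [Algebra Km F] [IsScalarTower K Km F] [Normal K L]
    [Normal K F] [IsGalois Km F] {V : WeierstrassCurve K} {W : WeierstrassCurve F} {l : ℕ}
    {T : W.toAffine.Point} {h : F ≃ₐ[Km] F} {J : F ≃ₐ[L] F} {D : ℤ}
    (H : Dat2 l K Km L F W T h J D) (hV : V.map (algebraMap K F) = W)
    {f : (AlgebraicClosure F ≃ₐ[K] AlgebraicClosure F) →
      (W.baseChange (AlgebraicClosure F)).toAffine.Point} (hf : SC l L hV f)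
    (g : AlgebraicClosure F ≃ₐ[K] AlgebraicClosure F) :
    ∃ S, l • S = 0 ∧ ∀ s ∈ SA K L (AlgebraicClosure F),
      cjf (act (inv_up hV)) g f s = f s + (act (inv_up hV) s S - S) := by
  have hρ : Rho (act (inv_up hV)) := rho_act _
  haveI := H.ell
  have hl := H.prime
  obtain ⟨Jh, hJh, hJ, hJJ⟩ := exists_Jh2 H
  obtain ⟨hT0, hTl⟩ := pt_ne2 H
  have hμ : ∀ σ ∈ SA K Km (AlgebraicClosure F), ∀ z : AlgebraicClosure F, z ^ l = 1 → σ z = z := by
    intro σ hσ z hz
    obtain ⟨y, rfl⟩ := roots2 H z hz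
    exact hσ y
  obtain ⟨e, he, hker, hKp, heJ⟩ := exists_weil2 (Km := Km) hV H.prime H.three hT0 hTl
    (pt_pos2 H hV hJ) (roots_J2 H hJ) hμ (pt_fix2 H hV)
  have hleK : SA K F (AlgebraicClosure F) ≤ SA K Km (AlgebraicClosure F) := SA_le
  have hleL : SA K F (AlgebraicClosure F) ≤ SA K L (AlgebraicClosure F) := SA_le
  haveI hNL : (SA K L (AlgebraicClosure F)).Normal := SA_normal
  haveI hNF : (SA K F (AlgebraicClosure F)).Normal := SA_normal
  obtain ⟨hh, hlift, hhP, heP⟩ := exists_hh (Km := Km) hV H.prime H.tow.cop he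
    (f := f) (fun s hs t ht => hf.coc s (hleL hs) t (hleL ht))
    (fun s hs => hf.tor s (hleL hs)) (fun s hs => hKp s (hleK hs))
  have hR : l • f (hh ^ orderOf h) = 0 := hf.tor _ (hleL hhP)
  have sc1 : SC l L hV (fun s => cjf (act (inv_up hV)) hh f s - f s) := sc_conj hf hh
  have hnew : New L hV hh (orderOf h) (f (hh ^ orderOf h))
      (fun s => cjf (act (inv_up hV)) hh f s - f s) := by
    intro s hs
    rw [sum_cjf hρ, cjf_inner hρ hf.coc (hleL hhP) hs]
    abel
  obtain ⟨f1, hf1⟩ : ∃ f1, f1 = fun s => cjf (act (inv_up hV)) hh f s - f s := ⟨_, rfl⟩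
  rw [← hf1] at sc1 hnew
  have h1 := step1b H hV he hker hKp hJh hJ heJ hlift hR sc1 hnew
  -- the shift
  have htor : ∀ (σ : AlgebraicClosure F ≃ₐ[K] AlgebraicClosure F) x, l • x = 0 → l • act (inv_up hV) σ x = 0 := by
    intro σ x hx
    rw [← map_nsmul, hx, map_zero]
  have hene : ∀ x, l • x = 0 → e x ≠ 0 := by
    intro x hx h0
    have h3 := he.pow x hx
    rw [h0, zero_pow hl.ne_zero] at h3
    exact zero_ne_one h3
  have hsub : ∀ x y, l • x = 0 → l • y = 0 → e (x - y) = e x * (e y)⁻¹ := by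
    intro x y hx hy
    have hxy : l • (x - y) = 0 := tor_sub hx hy
    have h3 := he.add (x - y) hxy y hy
    rw [sub_add_cancel] at h3
    rw [h3, mul_inv_cancel_right₀ (hene y hy)]
  have hodd : Odd l := by
    rcases hl.eq_two_or_odd' with h2 | h2
    · have := H.three
      omega
    · exact h2
  obtain ⟨m, hm⟩ := hodd
  have hfJ : l • f1 Jh = 0 := sc1.tor Jh hJh
  obtain ⟨T1, hT1⟩ : ∃ T1, T1 = m • f1 Jh := ⟨_, rfl⟩
  have hT1l : l • T1 = 0 := by rw [hT1]; exact tor_smul hfJ m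
  have hz0 : l • (0 : (W.baseChange (AlgebraicClosure F)).toAffine.Point) = 0 := nsmul_zero l
  have hee : e T1 = e (f1 Jh) ^ m := by
    rw [hT1]
    clear hT1 hT1l hm
    induction m with
    | zero =>
      rw [zero_nsmul, pow_zero]
      have h3 := he.add 0 hz0 0 hz0
      rw [add_zero] at h3
      exact (mul_eq_left₀ (hene 0 hz0)).mp h3.symm
    | succ m ih =>
      have hm1 : l • (m • f1 Jh) = 0 := tor_smul hfJ m
      rw [succ_nsmul, he.add _ hm1 _ hfJ, ih, pow_succ]
  have sc2 := sc_shift sc1 hT1l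
  obtain ⟨f2, hf2⟩ : ∃ f2, f2 = fun s => f1 s - (act (inv_up hV) s T1 - T1) := ⟨_, rfl⟩
  rw [← hf2] at sc2
  obtain ⟨R2, hR2⟩ : ∃ R2, R2 = f (hh ^ orderOf h) -
      ∑ j ∈ Finset.range (orderOf h), act (inv_up hV) (hh ^ j) T1 := ⟨_, rfl⟩
  have hnew2 : New L hV hh (orderOf h) R2 f2 := by
    intro s hs
    rw [hf2, hR2]
    exact new_shift hρ (hnew s hs)
  have hR2l : l • R2 = 0 := by
    rw [hR2]
    exact tor_sub hR (tor_sum (fun j => htor _ _ hT1l) _)
  have hsT : ∀ s ∈ SA K F (AlgebraicClosure F), ∀ x, l • x = 0 → e (act (inv_up hV) s x) = e x :=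
    fun s hs x hx => (hKp s (hleK hs) x hx).2
  have hC : ∀ s ∈ SA K F (AlgebraicClosure F), ∃ j : ℕ, f2 s = j • tp W T := by
    intro s hs
    refine (hker _ (sc2.tor s (hleL hs))).1 ?_
    rw [hf2]
    change e (f1 s - (act (inv_up hV) s T1 - T1)) = 1
    have h3 : l • (act (inv_up hV) s T1 - T1) = 0 := tor_sub (htor s T1 hT1l) hT1l
    rw [hsub _ _ (sc1.tor s (hleL hs)) h3, hsub _ _ (htor s T1 hT1l) hT1l, h1 s hs, hsT s hs T1 hT1l,
      mul_inv_cancel₀ (hene T1 hT1l), inv_one, one_mul]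
  have hJC : ∃ j : ℕ, f2 Jh = j • tp W T := by
    refine (hker _ (sc2.tor Jh hJh)).1 ?_
    rw [hf2]
    change e (f1 Jh - (act (inv_up hV) Jh T1 - T1)) = 1
    have h3 : l • (act (inv_up hV) Jh T1 - T1) = 0 := tor_sub (htor Jh T1 hT1l) hT1l
    have h4 : e (f1 Jh) ^ l = 1 := he.pow _ hfJ
    rw [hsub _ _ hfJ h3, hsub _ _ (htor Jh T1 hT1l) hT1l, heJ T1 hT1l, hee, mul_inv, inv_inv]
    rw [hm] at h4
    calc e (f1 Jh) * (e (f1 Jh) ^ m * e (f1 Jh) ^ m) = e (f1 Jh) ^ (2 * m + 1) := by ring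
      _ = 1 := h4
  -- `R2` is a multiple of `T`
  have hTfix := pt_fix2 H hV
  have hTJ := pt_pos2 H hV hJ
  have hClos : ∀ s ∈ SA K F (AlgebraicClosure F), ∃ j : ℕ, f2 (Jh * s) = j • tp W T := by
    intro s hs
    obtain ⟨j1, hj1⟩ := hJC
    obtain ⟨j2, hj2⟩ := hC s hs
    refine ⟨j1 + j2, ?_⟩
    rw [sc2.coc Jh hJh s (hleL hs), hj1, hj2, map_nsmul, hTJ, add_nsmul]
  have hR2e : e R2 = 1 := by
    have h3 := hnew2 Jh hJh
    have h4 : ∀ j : ℕ, ∃ i : ℕ, cjf (act (inv_up hV)) (hh ^ j) f2 Jh = i • tp W T := by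
      intro j
      have hcm : ∀ j : ℕ, Jh⁻¹ * ((hh ^ j)⁻¹ * Jh * hh ^ j) ∈ SA K F (AlgebraicClosure F) := by
        intro j
        induction j with
        | zero =>
          rw [pow_zero, inv_one, one_mul, mul_one, inv_mul_cancel]
          exact Subgroup.one_mem _
        | succ j ih =>
          have hcj := comm_mem H.tow.comm hlift hJh
          have e1 : Jh⁻¹ * ((hh ^ (j + 1))⁻¹ * Jh * hh ^ (j + 1)) =
              (Jh⁻¹ * hh⁻¹ * Jh * hh) * (hh⁻¹ * (Jh⁻¹ * ((hh ^ j)⁻¹ * Jh * hh ^ j)) * hh⁻¹⁻¹) := by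
            rw [pow_succ]
            group
          rw [e1]
          exact Subgroup.mul_mem _ hcj (hNF.conj_mem _ ih hh⁻¹)
      obtain ⟨i, hi⟩ := hClos _ (hcm j)
      refine ⟨i, ?_⟩
      unfold cjf
      have e2 : (hh ^ j)⁻¹ * Jh * hh ^ j = Jh * (Jh⁻¹ * ((hh ^ j)⁻¹ * Jh * hh ^ j)) := by group
      rw [e2, hi, map_nsmul]
      have e3 : act (inv_up hV) (hh ^ j) (tp W T) = tp W T :=
        hTfix _ (Subgroup.pow_mem _ (lift_mem hlift) j)
      rw [e3]
    choose i hi using h4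
    have h5 : ∑ j ∈ Finset.range (orderOf h), cjf (act (inv_up hV)) (hh ^ j) f2 Jh =
        (∑ j ∈ Finset.range (orderOf h), i j) • tp W T := by
      rw [Finset.sum_congr rfl fun j _ => hi j, Finset.sum_smul]
    rw [h5] at h3
    have h6 : e (act (inv_up hV) Jh R2 - R2) = 1 := by
      rw [← h3]
      exact (hker _ (tor_smul hTl _)).2 ⟨_, rfl⟩
    rw [hsub _ _ (htor Jh R2 hR2l) hR2l, heJ R2 hR2l] at h6
    have h7 : e R2 ^ l = 1 := he.pow _ hR2l
    have h8 : e R2 ^ 2 = 1 := by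
      have h9 := hene R2 hR2l
      field_simp at h6
      exact h6.symm
    rw [hm, pow_succ, pow_mul, h8, one_pow, one_mul] at h7
    exact h7
  have hRT := (hker _ hR2l).1 hR2e
  have h0 := step2b H hV hJh hJ hlift hRT sc2 hnew2 hC hJC
  have hB := triv_of_fix hρ H.prime hT0 hTl he hker H.tow.cop hhP
    (pt_fix2 H hV hh (lift_mem hlift)) (fun x hx => (hKp hh (lift_mem hlift) x hx).2)
  obtain ⟨R', hR', hf1'⟩ := vanish hρ H.prime hleL H.tow.cop sc2.coc sc2.tor h0
    (fun s hs => comm_mem H.tow.comm hlift hs) hB hR2l hnew2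
  obtain ⟨j, t, ht, rfl⟩ := cover (L := L) H.tow.cov hlift g
  refine all_of_one hρ hf.coc hf.tor (R := R' + T1) (tor_add hR' hT1l) ?_ ht
  intro s hs
  have h3 := hf1' s hs
  rw [hf2, hf1] at h3
  change cjf (act (inv_up hV)) hh f s - f s - (act (inv_up hV) s T1 - T1) = act (inv_up hV) s R' - R' at h3
  have h4 : cjf (act (inv_up hV)) hh f s = f s + (act (inv_up hV) s T1 - T1) + (act (inv_up hV) s R' - R') := by
    rw [← h3]
    abel
  rw [h4, map_add]
  abel

/-- Conjugation by the group of `K` does not change the classes of Sha killed by `l`, order 2. -/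
theorem ct_l2 {K Km L F : Type} [Field K] [NumberField K] [Field Km] [NumberField Km] [Field L]
    [NumberField L] [Field F] [NumberField F] [Algebra K L] [Algebra K F] [Algebra L F]
    [IsScalarTower K L F] [Algebra K Km] [Algebra Km F] [IsScalarTower K Km F] [Normal K L]
    [IsGalois K F] {V : WeierstrassCurve K} {V' : WeierstrassCurve L} {W : WeierstrassCurve F}
    {l : ℕ} {T : W.toAffine.Point} {h : F ≃ₐ[Km] F} {J : F ≃ₐ[L] F} {D : ℤ}
    (H : Dat2 l K Km L F W T h J D) (hVL : V.map (algebraMap K L) = V')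
    (hVF : V'.map (algebraMap L F) = W) : CTl l K L V' (inv_up hVL) := by
  have hV : V.map (algebraMap K F) = W := by
    rw [← hVF, ← hVL, WeierstrassCurve.map_map, ← IsScalarTower.algebraMap_eq K L F]
  have : IsGalois Km F := IsGalois.tower_top_of_isGalois K Km F
  exact ctl_of_core hVL hVF hV (fun f hf g => core2 H hV hf g)

end H78D
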