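import Pool.Agent.H78.TE.Ub
import Pool.Agent.H78.TE.Pt
import Pool.Agent.H78.TD.Kd
import Pool.Agent.H78.TD.Ja
import Pool.Agent.H78.TD.Ue
import Pool.Agent.H78.TD.Uh

/-!
Order 2, step 1: the values of a new class on the group of `F` are multiples of `T` (helper78, no row).
-/

set_option autoImplicit false
open scoped Classical

open WeierstrassCurve IsDedekindDomain NumberField Pool.Agent.H10 Pool.Agent.H11

namespace H78D

theorem step1b {K Km L F : Type} [Field K] [NumberField K] [Field Km] [NumberField Km] [Field L]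
    [NumberField L] [Field F] [NumberField F] [Algebra K L] [Algebra K F] [Algebra L F]
    [IsScalarTower K L F] [Algebra K Km] [Algebra Km F] [IsScalarTower K Km F] [Normal K L]
    [Normal K F] [IsGalois Km F] {V : WeierstrassCurve K} {W : WeierstrassCurve F} {l : ℕ}
    {T : W.toAffine.Point} {h : F ≃ₐ[Km] F} {J : F ≃ₐ[L] F} {D : ℤ}
    (H : Dat2 l K Km L F W T h J D) (hV : V.map (algebraMap K F) = W)
    {e : (W.baseChange (AlgebraicClosure F)).toAffine.Point → AlgebraicClosure F}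
    (he : Pr l {x | l • x = 0} e)
    (hker : ∀ x, l • x = 0 → (e x = 1 ↔ ∃ j : ℕ, x = j • tp W T))
    (hKp : ∀ σ ∈ SA K Km (AlgebraicClosure F), Kp (act (inv_up hV)) {x | l • x = 0} e σ)
    {Jh : AlgebraicClosure F ≃ₐ[K] AlgebraicClosure F} (hJh : Jh ∈ SA K L (AlgebraicClosure F))
    (hJ : ∀ x : F, Jh (algebraMap F (AlgebraicClosure F) x) =
      algebraMap F (AlgebraicClosure F) (J x))
    (heJ : ∀ x, l • x = 0 → e (act (inv_up hV) Jh x) = (e x)⁻¹)
    {hh : AlgebraicClosure F ≃ₐ[K] AlgebraicClosure F}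
    (hlift : ∀ x : F, hh (algebraMap F (AlgebraicClosure F) x) =
      algebraMap F (AlgebraicClosure F) (h x))
    {R : (W.baseChange (AlgebraicClosure F)).toAffine.Point} (hR : l • R = 0)
    {f : (AlgebraicClosure F ≃ₐ[K] AlgebraicClosure F) →
      (W.baseChange (AlgebraicClosure F)).toAffine.Point} (hf : SC l L hV f)
    (hnew : New L hV hh (orderOf h) R f) :
    ∀ s ∈ SA K F (AlgebraicClosure F), e (f s) = 1 := by
  have hell : W.IsElliptic := H.ell
  have hl := H.prime
  have hFL : SA K F (AlgebraicClosure F) ≤ SA K L (AlgebraicClosure F) := SA_le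
  have hFKm : SA K F (AlgebraicClosure F) ≤ SA K Km (AlgebraicClosure F) := SA_le
  have hinv : ∀ s ∈ SA K F (AlgebraicClosure F),
      Kp (act (inv_up hV)) {x | l • x = 0} e s := fun s hs => hKp s (hFKm hs)
  have hhb : Kp (act (inv_up hV)) {x | l • x = 0} e hh := hKp hh (lift_mem hlift)
  have hfB : ∀ s ∈ SA K F (AlgebraicClosure F), f s ∈ {x | l • x = 0} :=
    fun s hs => hf.tor s (hFL hs)
  obtain ⟨ζ0, hζ0⟩ := H.tow.root
  have hζF : IsPrimitiveRoot (algebraMap Km F ζ0) l :=
    hζ0.map_of_injective (algebraMap Km F).injective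
  obtain ⟨r, d, hr, hd, hrd, hψ, hN, hv⟩ := kum_all hV hl H.tow.gen H.tow.cop hlift (roots2 H)
    he hinv hhb hf hfB (R := R) hR hnew H.good H.fixP
  obtain ⟨c, hc⟩ := kumJ_minus hV hl he hf.coc hfB hinv hJh hJ (hf.tor Jh hJh)
    (fun x hx => roots_J2 H hJ _ (he.pow x hx))
    (fun x hx => ⟨by
      have hx' : l • x = 0 := hx
      change l • act (inv_up hV) Jh x = 0
      rw [← map_nsmul, hx', map_zero], heJ x hx⟩) hr hrd hψ
  have hres : ∀ σ : Gam F, σ.restrictScalars K ∈ SA K F (AlgebraicClosure F) :=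
    fun σ x => σ.commutes x
  have hunr : ∀ w : HeightOneSpectrum (𝓞 F), UnrK l F d w := by
    intro w
    by_cases hw : (l : 𝓞 F) ∈ w.asIdeal
    · refine unr_at_l2 W hl ⟨_, hζF⟩ H.kr w hw
        (f := fun τ : Gam F => f (τ.restrictScalars K)) (fun σ => hf.tor _ (hFL (hres σ))) hf.loc hd hrd ?_
      intro σ hσ
      have a1 := hψ _ (hres σ)
      have a2 : e (f (σ.restrictScalars K)) = 1 := (hker _ (hf.tor _ (hFL (hres σ)))).2 hσ
      rw [a2, one_mul] at a1
      exact a1
    · exact unr_of_dvd hl hd w hw (hv w)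
  obtain ⟨y, hy⟩ := pow_of_noUnr hl H.noC ⟨ζ0, hζ0⟩ (fun z hz => H.tow.Jz z hz) hd hN ⟨c, hc⟩ hunr
  have hy0 : algebraMap F (AlgebraicClosure F) y ≠ 0 := by
    intro h0
    rw [map_eq_zero] at h0
    rw [h0, zero_pow hl.ne_zero] at hy
    exact hd hy
  obtain ⟨z, hz⟩ := roots2 H (r / algebraMap F (AlgebraicClosure F) y) (by
    rw [div_pow, hrd, hy, map_pow, div_self (pow_ne_zero l hy0)])
  have hrz : r = algebraMap Km (AlgebraicClosure F) z * algebraMap F (AlgebraicClosure F) y := by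
    rw [hz, div_mul_cancel₀ _ hy0]
  intro s hs
  have a1 := hψ s hs
  have a2 : s r = r := by
    rw [hrz, map_mul, hs y, hFKm hs z]
  rw [a2] at a1
  have a4 : e (f s) * r = 1 * r := by rw [one_mul, ← a1]
  exact mul_right_cancel₀ hr a4

end H78D
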